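import Pool.Agent.Helper72.LSr.S3
import Pool.Agent.Helper72.LSr.T2

/-!
# Section 4: (QL), the last line, (H5) (pieces LR-S4a .. LR-S4c)
-/

namespace Pool.Agent.Helper23.LSr

open Finset
open scoped Classical
open Pool.Agent.Helper72.LSr

variable {V : Type} {j : ℕ} {G : SimpleGraph V} {S : Finset V} {k A B : ℕ}

/-- a neighbourhood is smaller -/
theorem card_nb_lt {v : V} (hv : v ∈ S) : ((nb G S v).card : ℤ) < S.card := by
  have h : nb G S v ⊂ S := by
    rw [ssubset_iff_of_subset (nb_subset G S v)]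
    exact ⟨v, hv, not_mem_nb_self G S v⟩
  exact_mod_cast card_lt_card h

theorem card_erase_lt' {v : V} (hv : v ∈ S) : ((S.erase v).card : ℤ) < S.card := by
  exact_mod_cast card_erase_lt_of_mem hv

/-- (QL) -/
theorem ql (h : QH V j G S k A B)
    (hE : ∀ v ∈ S, Yv k (A + 1) B G S v ≤ Dv k (A + 1) B G S v) {w : V} (hw : w ∈ S)
    (hmax : ∀ v ∈ S, Yv k (A + 1) B G S v * Dv k (A + 1) B G S w
      ≤ Yv k (A + 1) B G S w * Dv k (A + 1) B G S v)
    (hY : 1 ≤ Yv k (A + 1) B G S w) :
    1 ≤ Dv k (A + 1) B G S w - Yv k (A + 1) B G S w - rS k (A + 1) B G S - K G (NH G S w) 2 ∧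
    Dv k (A + 1) B G S w ≤ MS k (A + 1) B S + 1 ∧ 0 ≤ gS k (A + 1) B G S := by
  obtain ⟨f, hf, -⟩ := exists_order (NH G S w) (fun _ => (0 : ℤ))
  have hid := id_one' (G := G) (S := S) hw k A B j f hf
  have hDw := h.hD w hw
  have hEw := hE w hw
  have hP := h.hP
  have hl := es_nonneg k A B (j + 1)
  -- `L`
  have hL : 0 ≤ Phi k A B (j + 2) G (nb G S w) := by
    apply Phi_nonneg (fun m => h.th2 _ m (by exact_mod_cast card_nb_lt hw)) h.hk
    · rw [rS_nb]; linarith
    · rw [gS_nb]; linarith
  have hkap : 0 ≤ Phi k A B (j + 1) G (nb G S w) := by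
    apply Phi_nonneg (fun m => h.th1 _ m) h.hk
    · rw [rS_nb]; linarith
    · rw [gS_nb]; linarith
  have hNHS : NH G S w ⊆ S := filter_subset _ _
  have hcon : ∀ u ∈ NH G S w, 0 ≤ Dv k (A + 1) B G S w *
      con k A B j G S u (Qf G (NH G S w) f u) + es k A B (j + 1) *
      (Yv k (A + 1) B G S w * Dv k (A + 1) B G S u
        - Dv k (A + 1) B G S w * Yv k (A + 1) B G S u) := by
    intro u hu
    have huS := hNHS hu
    have hQ : Qf G (NH G S w) f u ⊆ nb G S u := by
      intro x hx
      unfold Qf at hx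
      rw [mem_filter] at hx
      rw [mem_nb]
      exact ⟨hNHS hx.1, hx.2.1⟩
    have h1 := con_ge_gam (j := j) (A := A) (B := B) h.th1 h.hk huS hQ (fun x hx => by
      have := hQ hx
      rw [mem_nb] at this
      exact h.hc u huS x this.1 this.2) (hE u huS) (by have := h.hD u huS; linarith)
    have hDu := h.hD u huS
    have hm := hmax u huS
    rcases le_total 0 (Yv k (A + 1) B G S u) with h0 | h0
    · rw [min_eq_left h0, mul_zero] at h1
      have h2 : 0 ≤ Dv k (A + 1) B G S w * con k A B j G S u (Qf G (NH G S w) f u) :=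
        mul_nonneg (by linarith) h1
      have h3 : 0 ≤ es k A B (j + 1) *
        (Yv k (A + 1) B G S w * Dv k (A + 1) B G S u
          - Dv k (A + 1) B G S w * Yv k (A + 1) B G S u) := mul_nonneg hl (by linarith)
      linarith
    · rw [min_eq_right h0] at h1
      have h2 : Dv k (A + 1) B G S w * (es k A B (j + 1) * Yv k (A + 1) B G S u)
        ≤ Dv k (A + 1) B G S w * con k A B j G S u (Qf G (NH G S w) f u) :=
        mul_le_mul_of_nonneg_left h1 (by linarith)
      have h3 : 0 ≤ es k A B (j + 1) * (Yv k (A + 1) B G S w * Dv k (A + 1) B G S u) := by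
        apply mul_nonneg hl
        apply mul_nonneg <;> linarith
      linarith
  have hsum : 0 ≤ Dv k (A + 1) B G S w *
      (∑ u ∈ NH G S w, con k A B j G S u (Qf G (NH G S w) f u)) + es k A B (j + 1) *
      (∑ u ∈ NH G S w, (Yv k (A + 1) B G S w * Dv k (A + 1) B G S u
        - Dv k (A + 1) B G S w * Yv k (A + 1) B G S u)) := by
    rw [mul_sum, mul_sum, ← sum_add_distrib]
    exact sum_nonneg hcon
  set Z := Dv k (A + 1) B G S w - Yv k (A + 1) B G S w - rS k (A + 1) B G S - K G (NH G S w) 2
    with hZdef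
  have hpos : 0 < es k A B (j + 1) * Yv k (A + 1) B G S w * Z := by
    rw [← hid]
    have h1 : 0 < Dv k (A + 1) B G S w * (- Phi k (A + 1) B (j + 2) G S
      + Phi k A B (j + 2) G (nb G S w) + Phi k A B (j + 1) G (nb G S w)) := by
      apply mul_pos <;> linarith
    linarith
  have hZ : 1 ≤ Z := by
    by_contra hneg
    push Not at hneg
    have h0 : Z ≤ 0 := by linarith
    have h1 : 0 ≤ es k A B (j + 1) * Yv k (A + 1) B G S w := mul_nonneg hl (by linarith)
    have := mul_nonpos_of_nonneg_of_nonpos h1 h0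
    linarith
  have hE4 := id_E4 G S hw k (A + 1) B
  have hq : (0 : ℤ) ≤ ∑ y ∈ NH G S w, ((Qs G S w y).card : ℤ) :=
    sum_nonneg (fun _ _ => by positivity)
  have hmm := K_nonneg G (NH G S w) 2
  have hr := h.hr
  have hX : Dv k (A + 1) B G S w ≤ MS k (A + 1) B S + 1 := by
    by_contra hneg
    push Not at hneg
    have h1 : (1 - (Dv k (A + 1) B G S w - MS k (A + 1) B S)) * Dv k (A + 1) B G S w
        ≤ - Dv k (A + 1) B G S w := by nlinarith
    linarith
  refine ⟨hZ, hX, ?_⟩
  by_contra hneg
  push Not at hneg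
  have h1 := rS_eq (G := G) (S := S) k (A + 1) B
  linarith

/-- the last line with some `Y_v ≥ 1` -/
theorem last_line (N : ℕ) : ∀ k A B : ℕ, QH V j G S k A B →
    (∀ v ∈ S, Yv k (A + 1) B G S v ≤ N) → (∃ v ∈ S, 1 ≤ Yv k (A + 1) B G S v) →
    0 ≤ gS k (A + 1) B G S ∧ ∀ v ∈ S, Yv k (A + 1) B G S v + 1 ≤ Dv k (A + 1) B G S v := by
  induction N with
  | zero =>
    intro k A B h hN hex
    obtain ⟨v, hv, hY⟩ := hex
    have := hN v hv
    push_cast at this
    linarith
  | succ N ih =>
    intro k A B h hN hex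
    by_cases hE : ∀ v ∈ S, Yv k (A + 1) B G S v ≤ Dv k (A + 1) B G S v
    · -- the argmax
      obtain ⟨v0, hv0, hY0⟩ := hex
      obtain ⟨w, hw, hmax⟩ := S.exists_max_image
        (fun v => (Yv k (A + 1) B G S v : ℚ) / (Dv k (A + 1) B G S v : ℚ)) ⟨v0, hv0⟩
      have hDq : ∀ v ∈ S, (0 : ℚ) < (Dv k (A + 1) B G S v : ℚ) := by
        intro v hv
        have := h.hD v hv
        exact_mod_cast (show (0 : ℤ) < Dv k (A + 1) B G S v by linarith)
      have hmax' : ∀ v ∈ S, Yv k (A + 1) B G S v * Dv k (A + 1) B G S w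
          ≤ Yv k (A + 1) B G S w * Dv k (A + 1) B G S v := by
        intro v hv
        have h1 := hmax v hv
        rw [div_le_div_iff₀ (hDq v hv) (hDq w hw)] at h1
        exact_mod_cast h1
      have hYw : 1 ≤ Yv k (A + 1) B G S w := by
        have h1 := hmax' v0 hv0
        have h2 := h.hD v0 hv0
        have h3 := h.hD w hw
        by_contra hneg
        push Not at hneg
        have h4 : Yv k (A + 1) B G S w ≤ 0 := by linarith
        have h5 : Yv k (A + 1) B G S w * Dv k (A + 1) B G S v0 ≤ 0 :=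
          mul_nonpos_of_nonpos_of_nonneg h4 (by linarith)
        have h6 : 0 < Yv k (A + 1) B G S v0 * Dv k (A + 1) B G S w := by
          apply mul_pos <;> linarith
        linarith
      obtain ⟨hZ, hX, hg⟩ := ql h hE hw hmax' hYw
      refine ⟨hg, fun v hv => ?_⟩
      have hmm := K_nonneg G (NH G S w) 2
      have hr := h.hr
      have h1 := hmax' v hv
      have h2 := h.hD v hv
      have h3 := h.hD w hw
      have h4 : Yv k (A + 1) B G S w + 1 ≤ Dv k (A + 1) B G S w := by linarith
      by_contra hneg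
      push Not at hneg
      have h5 : Dv k (A + 1) B G S v ≤ Yv k (A + 1) B G S v := by linarith
      have h6 : Dv k (A + 1) B G S v * Dv k (A + 1) B G S w
          ≤ Yv k (A + 1) B G S v * Dv k (A + 1) B G S w :=
        mul_le_mul_of_nonneg_right h5 (by linarith)
      have h7 : Yv k (A + 1) B G S w * Dv k (A + 1) B G S v
          ≤ (Dv k (A + 1) B G S w - 1) * Dv k (A + 1) B G S v :=
        mul_le_mul_of_nonneg_right (by linarith) (by linarith)
      linarith
    · exfalso
      push Not at hE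
      obtain ⟨v0, hv0, hYD⟩ := hE
      have hr := h.hr
      have hM := h.hM
      have hP := h.hP
      have hl := es_nonneg k A B (j + 1)
      have hPl := Phi_low G S k A B (j + 1)
      have hPl' : Phi k A (B + 1) (j + 2) G S ≤ -1 := by
        rw [show j + 2 = (j + 1) + 1 from rfl, hPl]
        have : 0 ≤ es k A B (j + 1) * rS k (A + 1) B G S := mul_nonneg hl (by linarith)
        rw [show j + 2 = (j + 1) + 1 from rfl] at hP
        linarith
      rcases A with _ | A
      · -- switch
        have hQH : QH V j G S (k + 1) B 0 := by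
          refine ⟨by omega, h.th1, h.th2, ?_, ?_, ?_, ?_, ?_⟩
          · intro x hx y hy hxy
            have h1 := h.hc x hx y hy hxy
            have h2 := es_le_low k 0 B (j + 2)
            have h3 := es_sw k (B + 1) (j + 2)
            rw [← h3]
            linarith
          · rw [Phi_sw]
            exact hPl'
          · intro v hv
            rw [Dv_sw, Dv_low]
            have := h.hD v hv
            linarith
          · rw [MS_sw, MS_low]; linarith
          · rw [rS_sw, rS_low, MS_low]; linarith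
        have h1 := ih (k + 1) B 0 hQH (fun v hv => by
            rw [Yv_sw, Yv_low]
            have h1 := hN v hv
            have h2 := h.hD v hv
            push_cast at h1
            linarith) ⟨v0, hv0, by rw [Yv_sw, Yv_low]; linarith⟩
        have h2 := h1.1
        rw [gS_sw, rS_low] at h2
        linarith
      · have hQH : QH V j G S k A (B + 1) := by
          refine ⟨h.hk, h.th1, h.th2, ?_, hPl', ?_, ?_, ?_⟩
          · intro x hx y hy hxy
            have h1 := h.hc x hx y hy hxy
            have h2 := es_le_low k (A + 1) B (j + 2)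
            linarith
          · intro v hv
            rw [Dv_low]
            have := h.hD v hv
            linarith
          · rw [MS_low]; linarith
          · rw [rS_low]; linarith
        have h1 := ih k A (B + 1) hQH (fun v hv => by
            rw [Yv_low]
            have h1 := hN v hv
            have h2 := h.hD v hv
            push_cast at h1
            linarith) ⟨v0, hv0, by rw [Yv_low]; linarith⟩
        have h2 := h1.1
        rw [gS_low] at h2
        linarith

/-- if `Y_v ≤ 0` then `D_v ≥ g + 2` -/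
theorem D_ge_of_Y_nonpos (h : CE V j G S k (A + 1) B) (v : V) (hv : v ∈ S)
    (hY : Yv k (A + 1) B G S v ≤ 0) :
    gS k (A + 1) B G S + 2 ≤ Dv k (A + 1) B G S v := by
  have hD := all_D_pos h v hv
  by_contra hneg
  push Not at hneg
  have hr := h.hr
  have h1 : 0 ≤ Phi k (A + 1) B (j + 2) G (S.erase v) := by
    apply Phi_nonneg (fun m => h.th2 _ m (by exact_mod_cast card_erase_lt' hv)) h.hk
    · rw [rS_erase G S _ _ _ hv]; linarith
    · rw [gS_erase G S _ _ _ hv]; linarith
  rw [show j + 2 = (j + 1) + 1 from rfl, Phi_erase G S _ _ _ _ hv] at h1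
  have h2 := Yr_nonpos h.th1 h.hk hY (by linarith)
  have h3 := h.hP
  rw [show j + 2 = (j + 1) + 1 from rfl] at h3
  linarith

/-- (H5), `B ≥ 1`: in the line `(A+2,B)` one has `Y^+_v ≥ g + 1` -/
theorem Y_plus_ge (h : CE V j G S k A (B + 1)) (v : V) (hv : v ∈ S)
    (hY : Yv k A (B + 1) G S v ≤ 0) (hD : gS k A (B + 1) G S + 2 ≤ Dv k A (B + 1) G S v)
    (hX : Dv k A (B + 1) G S v ≤ MS k A (B + 1) S + 1 + gS k A (B + 1) G S) :
    gS k A (B + 1) G S + 1 ≤ Yv k (A + 1) B G S v := by
  have hg := h.hg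
  have eD := Dv_low G S k A B v
  have eY := Yv_low G S k A B v
  have eM := MS_low S k A B
  have eg := gS_low G S k A B
  have er := rS_low G S k A B
  have eP := Phi_low G S k A B (j + 1)
  have e1 := rS_eq (G := G) (S := S) k (A + 1) B
  have hr := h.hr
  have hP := h.hP
  have h1 : 0 ≤ Phi k (A + 1) B (j + 2) G (S.erase v) := by
    apply Phi_nonneg (fun m => h.th2 _ m (by exact_mod_cast card_erase_lt' hv)) h.hk
    · rw [rS_erase G S _ _ _ hv]; linarith
    · rw [gS_erase G S _ _ _ hv]; linarith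
  rw [show j + 2 = (j + 1) + 1 from rfl, Phi_erase G S _ _ _ _ hv] at h1
  rw [Yr_eq] at h1
  rw [show j + 2 = (j + 1) + 1 from rfl] at hP
  have hl := es_nonneg k A B (j + 1)
  set mu := es k A B (j + 1) with hmu
  set Yp := Yv k (A + 1) B G S v with hYp
  have hmain : Phi k A B (j + 1) G (nb G S v) + 1 + mu * gS k A (B + 1) G S ≤ mu * Yp := by
    have : rS k (A + 1) B G S = - gS k A (B + 1) G S := by linarith
    rw [this] at eP
    linarith
  have e2 := gS_nb G S k A B v
  have e3 := MS_nb G S k A B v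
  have e4 := rS_nb G S k A B v
  rcases le_total 0 Yp with h0 | h0
  · have h2 : 0 ≤ Phi k A B (j + 1) G (nb G S v) := by
      apply Phi_nonneg (fun m => h.th1 _ m) h.hk
      · rw [e4]; linarith
      · rw [e2]; exact h0
    by_contra hneg
    push Not at hneg
    have h3 : Yp ≤ gS k A (B + 1) G S := by linarith
    have h4 := mul_le_mul_of_nonneg_left h3 hl
    linarith
  · exfalso
    have h2 := Phi_cheap (i := j + 1) (G := G) (S := nb G S v) (k := k) (A := A) (B := B)
      (fun m => h.th1 _ m) h.hk (by rw [e2]; exact h0) (by rw [e3]; linarith)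
    rw [e2] at h2
    have h5 : 0 ≤ mu * gS k A (B + 1) G S := mul_nonneg hl hg
    linarith

/-- (H5), `B ≥ 1` -/
theorem h5_B (h : CE V j G S k (A + 1) (B + 1)) (v : V) (hv : v ∈ S)
    (hY : Yv k (A + 1) (B + 1) G S v ≤ 0) :
    - Yv k (A + 1) (B + 1) G S v ≤ Dv k (A + 1) (B + 1) G S v - 2 ∨
      MS k (A + 1) (B + 1) S + 1 ≤ Dv k (A + 1) (B + 1) G S v := by
  have hD := D_ge_of_Y_nonpos h v hv hY
  have hg := h.hg
  by_cases hX : Dv k (A + 1) (B + 1) G S v ≤ MS k (A + 1) (B + 1) S + 1
      + gS k (A + 1) (B + 1) G S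
  · left
    have h1 := Y_plus_ge h v hv hY hD hX
    have eD := Dv_low G S k (A + 1) B v
    have eY := Yv_low G S k (A + 1) B v
    linarith
  · right
    push Not at hX
    linarith

/-- (H5), `B = 0` -/
theorem h5_zero (h : CE V j G S k (A + 1) 0) (hk : 2 ≤ k) (v : V) (hv : v ∈ S)
    (hY : Yv k (A + 1) 0 G S v ≤ 0) :
    - Yv k (A + 1) 0 G S v ≤ Dv k (A + 1) 0 G S v - 2 ∨
      MS k (A + 1) 0 S + 1 ≤ Dv k (A + 1) 0 G S v := by
  right
  have hD := D_ge_of_Y_nonpos h v hv hY
  have hg := h.hg
  by_contra hneg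
  push Not at hneg
  obtain ⟨k', rfl⟩ : ∃ k', k = k' + 1 := ⟨k - 1, by omega⟩
  have eD := Dv_sw G S k' (A + 1) v
  have eM := MS_sw S k' (A + 1)
  have eg := gS_sw G S k' (A + 1)
  have e1 := rS_eq (G := G) (S := S) k' 0 (A + 1)
  have h1 : 0 ≤ Phi k' 0 (A + 1) (j + 2) G (S.erase v) := by
    apply Phi_nonneg (fun m => h.th2 _ m (by exact_mod_cast card_erase_lt' hv)) (by omega)
    · rw [rS_erase G S _ _ _ hv]; linarith
    · rw [gS_erase G S _ _ _ hv]; linarith
  rw [← Phi_sw, show j + 2 = (j + 1) + 1 from rfl, Phi_erase G S _ _ _ _ hv] at h1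
  have h2 := Yr_nonpos h.th1 h.hk hY (by linarith)
  have h3 := h.hP
  rw [show j + 2 = (j + 1) + 1 from rfl] at h3
  linarith

end Pool.Agent.Helper23.LSr
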